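import Pool.Agent.H51.MFL.S
import Pool.Agent.H41.MFQ.GEN

/-!
# Board mfl, row DIR: a direction in which the points are generic
-/

set_option autoImplicit false

open Module MvPolynomial

namespace Pool.MFL

open Pool.MFQ Pool.MFM

theorem t_dir : DIRStmt := by
  intro L _ _ _ V s q b a₀
  obtain ⟨Δ, hΔ, hΔ0, hgen⟩ := t_gen L V
  obtain ⟨ξ, hξ⟩ := Function.ne_iff.1 hΔ0
  refine ⟨fun z => (dualC b).symm ξ z - a₀ z, ?_⟩
  obtain ⟨b₀, hb₀⟩ : ∃ b₀ : Fin s ⊕ Fin q → ℂ, b₀ = fun z => (dualC b).symm ξ z - a₀ z :=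
    ⟨_, rfl⟩
  rw [← hb₀]
  have hlin : ∀ t : ℂ, dualC b (fun z => a₀ z + t * b₀ z) = dualC b a₀ + t • dualC b b₀ := by
    intro t
    rw [← map_smul, ← map_add]
    rfl
  have hone : dualC b (fun z => a₀ z + 1 * b₀ z) = ξ := by
    have : (fun z => a₀ z + 1 * b₀ z) = (dualC b).symm ξ := by
      funext z
      rw [hb₀]
      ring
    rw [this, LinearEquiv.apply_symm_apply]
  have key : ∃ P : Polynomial ℂ, ∀ t : ℂ, Δ (dualC b (fun z => a₀ z + t * b₀ z)) = P.eval t := by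
    clear hgen hΔ0 hξ
    induction hΔ using Algebra.adjoin_induction with
    | mem f hf =>
      obtain ⟨x, rfl⟩ := hf
      refine ⟨Polynomial.C (dualC b a₀ x) + Polynomial.X * Polynomial.C (dualC b b₀ x),
        fun t => ?_⟩
      simp only [hlin]
      rw [Polynomial.eval_add, Polynomial.eval_mul, Polynomial.eval_C, Polynomial.eval_C,
        Polynomial.eval_X]
      rfl
    | algebraMap c => exact ⟨Polynomial.C c, fun t => by simp⟩
    | add u v _ _ hu hv =>
      obtain ⟨P, hP⟩ := hu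
      obtain ⟨Q, hQ⟩ := hv
      exact ⟨P + Q, fun t => by rw [Pi.add_apply, hP, hQ, Polynomial.eval_add]⟩
    | mul u v _ _ hu hv =>
      obtain ⟨P, hP⟩ := hu
      obtain ⟨Q, hQ⟩ := hv
      exact ⟨P * Q, fun t => by rw [Pi.mul_apply, hP, hQ, Polynomial.eval_mul]⟩
  obtain ⟨P, hP⟩ := key
  have hP0 : P ≠ 0 := by
    intro h
    apply hξ
    have := hP 1
    rw [hone, h, Polynomial.eval_zero] at this
    simpa using this
  have hfin : ((P.rootSet ℂ) \ {0}).Finite := (Polynomial.rootSet_finite P ℂ).subset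
    Set.diff_subset
  have hnh : ((P.rootSet ℂ) \ {0})ᶜ ∈ nhds (0 : ℂ) :=
    hfin.isClosed.isOpen_compl.mem_nhds (by simp)
  filter_upwards [mem_nhdsWithin_of_mem_nhds hnh, self_mem_nhdsWithin] with t ht ht0
  apply hgen
  rw [hP]
  intro h
  apply ht
  refine ⟨?_, ht0⟩
  rw [Polynomial.mem_rootSet]
  exact ⟨hP0, by simpa using h⟩

end Pool.MFL
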