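import Pool.Agent.H51.MFL.S
import Pool.Agent.H51.MFM.All

/-!
# Board mfl, row FIN: from a quantisation of the algebra of polynomials to a quantisation
-/

set_option autoImplicit false

open Module MvPolynomial

namespace Pool.MFL

open Pool.MFQ Pool.MFM Pool.MFM.QT

theorem tps_graded {κ : Type} [Fintype κ] (A : κ → ((κ → ℂ) →L[ℂ] (κ → ℂ))) (a : κ → ℂ)
    (F : MvPolynomial κ ℂ) (hF : F ∈ Algebra.adjoin ℂ (TPs A a)) (n : ℕ) :
    homogeneousComponent n F ∈ Algebra.adjoin ℂ (TPs A a) := by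
  classical
  induction hF using Algebra.adjoin_induction generalizing n with
  | mem p hp =>
    obtain ⟨f, k, hf, hk, hh, hp'⟩ := hp
    rw [homogeneousComponent_of_mem ((mem_homogeneousSubmodule _ _).2 hh)]
    split_ifs
    · exact Algebra.subset_adjoin ⟨f, k, hf, hk, hh, hp'⟩
    · exact zero_mem _
  | algebraMap c =>
    rw [algebraMap_eq, homogeneousComponent_of_mem
      ((mem_homogeneousSubmodule _ _).2 (isHomogeneous_C _ c))]
    split_ifs
    · exact Subalgebra.algebraMap_mem _ c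
    · exact zero_mem _
  | add u v _ _ hu hv =>
    rw [map_add]
    exact add_mem (hu n) (hv n)
  | mul u v _ _ hu hv => exact Pool.MFM.G6.hc_mul _ hu hv n

theorem t_fin : FINStmt := by
  classical
  intro L _ _ _ s q b a B hB1 hB2 hB3
  have hUNQ : UNQStmt := h_unq (t_pbw t_pba)
  have hSYA : SYAStmt := t_sya
  have hMFP : MFPStmt := t_mfp t_tr2 t_tph
  obtain ⟨A, hA⟩ : ∃ A : Subalgebra ℂ (MvPolynomial (Fin s ⊕ Fin q) ℂ),
    A = Algebra.adjoin ℂ (TPs (opA b) ((dualC b).symm a)) := ⟨_, rfl⟩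
  have hMF : MF a = A.map (evP b) := by rw [hA]; exact hMFP L (Fin s ⊕ Fin q) b a
  rw [← hA] at hB2 hB3
  have hgr : ∀ F ∈ A, ∀ n, homogeneousComponent n F ∈ A := by
    intro F hF n
    rw [hA] at hF ⊢
    exact tps_graded _ _ F hF n
  have hmemMF : ∀ G ∈ A, evP b G ∈ MF a := by
    intro G hG
    rw [hMF]
    exact ⟨G, hG, rfl⟩
  have hne : ∀ G : MvPolynomial (Fin s ⊕ Fin q) ℂ, G ≠ 0 → evP b G ≠ 0 := by
    intro G hG h
    exact hG (evP_inj b (by rw [h, map_zero]))
  refine ⟨hB1, ?_, ?_⟩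
  · intro u hu hu0
    obtain ⟨k, G, hG, hG0, _, hs⟩ := hB2 u hu hu0
    exact ⟨k, evP b G, hne G hG0, hmemMF G hG, hs⟩
  · apply le_antisymm
    · rw [hMF]
      rintro _ ⟨F, hF, rfl⟩
      have hF' : F ∈ A := hF
      have h1 : ∀ n, evP b (homogeneousComponent n F) ∈
          Algebra.adjoin ℂ {P | P ≠ 0 ∧ ∃ u ∈ B, ∃ k : ℕ, HasSym k u P} := by
        intro n
        by_cases h0 : homogeneousComponent n F = 0
        · rw [h0, map_zero]
          exact Subalgebra.zero_mem _
        · obtain ⟨u, hu, hs⟩ := hB3 n (homogeneousComponent n F) (hgr F hF' n)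
            (homogeneousComponent_isHomogeneous n F)
          exact Algebra.subset_adjoin ⟨hne _ h0, u, hu, n, hs⟩
      have h2 : F = ∑ i ∈ Finset.range (F.totalDegree + 1), homogeneousComponent i F :=
        (sum_homogeneousComponent F).symm
      change evP b F ∈ _
      rw [h2, map_sum]
      exact Subalgebra.sum_mem _ fun n _ => h1 n
    · apply Algebra.adjoin_le
      rintro P ⟨hP0, u, hu, k, hs⟩
      by_cases hu0 : u = 0
      · exact absurd (hUNQ L k u P hs (by rw [hu0]; exact Submodule.zero_mem _)) hP0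
      · obtain ⟨k', G, hG, hG0, _, hs'⟩ := hB2 u hu hu0
        rw [(sym_uniq hUNQ hSYA hs hs' hP0 (hne G hG0)).2]
        exact hmemMF G hG

end Pool.MFL
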