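import Pool.Agent.H51.MFL.S

/-!
# Board mfl, row SCL: Lie algebras with given structure constants
-/

set_option autoImplicit false

open Module MvPolynomial

namespace Pool.MFL

open Pool.MFQ Pool.MFM

namespace Scl

variable {R κ : Type} [CommRing R] [Fintype κ]

/-- The bracket with structure constants `c`. -/
def br (c : κ → κ → κ → R) (x y : κ → R) : κ → R := fun k => ∑ i, ∑ j, x i * y j * c i j k

theorem br_add_left (c : κ → κ → κ → R) (x y z : κ → R) :
    br c (x + y) z = br c x z + br c y z := by
  funext k
  simp only [br, Pi.add_apply, ← Finset.sum_add_distrib]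
  refine Finset.sum_congr rfl fun i _ => Finset.sum_congr rfl fun j _ => ?_
  ring

theorem br_add_right (c : κ → κ → κ → R) (x y z : κ → R) :
    br c x (y + z) = br c x y + br c x z := by
  funext k
  simp only [br, Pi.add_apply, ← Finset.sum_add_distrib]
  refine Finset.sum_congr rfl fun i _ => Finset.sum_congr rfl fun j _ => ?_
  ring

theorem br_smul_right (c : κ → κ → κ → R) (t : R) (x y : κ → R) :
    br c x (t • y) = t • br c x y := by
  funext k
  simp only [br, Pi.smul_apply, smul_eq_mul, Finset.mul_sum]
  refine Finset.sum_congr rfl fun i _ => Finset.sum_congr rfl fun j _ => ?_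
  ring

theorem br_skew (c : κ → κ → κ → R) (hs : ∀ i j k, c i j k = -c j i k) (x y : κ → R) :
    br c x y = -br c y x := by
  funext k
  simp only [br, Pi.neg_apply, ← Finset.sum_neg_distrib]
  rw [Finset.sum_comm]
  refine Finset.sum_congr rfl fun i _ => Finset.sum_congr rfl fun j _ => ?_
  rw [hs j i k]
  ring

theorem br_self (c : κ → κ → κ → R) (hz : ∀ i k, c i i k = 0)
    (hs : ∀ i j k, c i j k = -c j i k) (x : κ → R) : br c x x = 0 := by
  classical
  funext k
  simp only [br, Pi.zero_apply]
  rw [← Finset.sum_product']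
  refine Finset.sum_ninvolution Prod.swap ?_ ?_ ?_ ?_
  · rintro ⟨i, j⟩
    change x i * x j * c i j k + x j * x i * c j i k = 0
    rw [hs i j k]
    ring
  · rintro ⟨i, j⟩ h h2
    apply h
    obtain rfl : j = i := congrArg Prod.fst h2
    change x j * x j * c j j k = 0
    rw [hz, mul_zero]
  · intro a
    exact Finset.mem_product.2 ⟨Finset.mem_univ _, Finset.mem_univ _⟩
  · intro a
    exact Prod.swap_swap a

theorem br_br (c : κ → κ → κ → R) (x y z : κ → R) (l : κ) :
    br c (br c x y) z l = ∑ i, ∑ j, ∑ k, x i * y j * z k * ∑ m, c i j m * c m k l := by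
  simp only [br, Finset.sum_mul, Finset.mul_sum]
  rw [Finset.sum_comm]
  have h : ∀ k m : κ, ∑ i, ∑ j, x i * y j * c i j m * z k * c m k l =
      ∑ i, ∑ j, x i * y j * z k * (c i j m * c m k l) := fun k m =>
    Finset.sum_congr rfl fun i _ => Finset.sum_congr rfl fun j _ => by ring
  simp only [h]
  calc ∑ k, ∑ m, ∑ i, ∑ j, x i * y j * z k * (c i j m * c m k l)
      = ∑ k, ∑ i, ∑ j, ∑ m, x i * y j * z k * (c i j m * c m k l) := by
        refine Finset.sum_congr rfl fun k _ => ?_
        rw [Finset.sum_comm]
        refine Finset.sum_congr rfl fun i _ => ?_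
        rw [Finset.sum_comm]
    _ = ∑ i, ∑ k, ∑ j, ∑ m, x i * y j * z k * (c i j m * c m k l) := Finset.sum_comm
    _ = _ := by
        refine Finset.sum_congr rfl fun i _ => ?_
        rw [Finset.sum_comm]

theorem br_jac (c : κ → κ → κ → R)
    (hj : ∀ i j k l, ∑ m, (c i j m * c m k l + c j k m * c m i l + c k i m * c m j l) = 0)
    (x y z : κ → R) :
    br c (br c x y) z + br c (br c y z) x + br c (br c z x) y = 0 := by
  funext l
  simp only [Pi.add_apply, Pi.zero_apply, br_br]
  have h2 : ∑ i, ∑ j, ∑ k, y i * z j * x k * ∑ m, c i j m * c m k l =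
      ∑ i, ∑ j, ∑ k, x i * y j * z k * ∑ m, c j k m * c m i l := by
    calc ∑ j, ∑ k, ∑ i, y j * z k * x i * ∑ m, c j k m * c m i l
        = ∑ j, ∑ i, ∑ k, y j * z k * x i * ∑ m, c j k m * c m i l :=
          Finset.sum_congr rfl fun j _ => Finset.sum_comm
      _ = ∑ i, ∑ j, ∑ k, y j * z k * x i * ∑ m, c j k m * c m i l := Finset.sum_comm
      _ = _ := Finset.sum_congr rfl fun i _ => Finset.sum_congr rfl fun j _ =>
          Finset.sum_congr rfl fun k _ => by ring
  have h3 : ∑ i, ∑ j, ∑ k, z i * x j * y k * ∑ m, c i j m * c m k l =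
      ∑ i, ∑ j, ∑ k, x i * y j * z k * ∑ m, c k i m * c m j l := by
    calc ∑ k, ∑ i, ∑ j, z k * x i * y j * ∑ m, c k i m * c m j l
        = ∑ i, ∑ k, ∑ j, z k * x i * y j * ∑ m, c k i m * c m j l := Finset.sum_comm
      _ = ∑ i, ∑ j, ∑ k, z k * x i * y j * ∑ m, c k i m * c m j l :=
          Finset.sum_congr rfl fun i _ => Finset.sum_comm
      _ = _ := Finset.sum_congr rfl fun i _ => Finset.sum_congr rfl fun j _ =>
          Finset.sum_congr rfl fun k _ => by ring
  rw [h2, h3]
  simp only [← Finset.sum_add_distrib, ← mul_add]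
  refine Finset.sum_eq_zero fun i _ => Finset.sum_eq_zero fun j _ =>
    Finset.sum_eq_zero fun k _ => ?_
  rw [hj, mul_zero]

end Scl

open Scl in
theorem t_scl : SCLStmt := by
  classical
  intro R κ _ _ c hz hs hj
  let Br : Bracket (κ → R) (κ → R) := ⟨br c⟩
  let I1 : LieRing (κ → R) :=
    { (inferInstance : AddCommGroup (κ → R)) with
      bracket := br c
      add_lie := br_add_left c
      lie_add := br_add_right c
      lie_self := br_self c hz hs
      leibniz_lie := by
        intro x y z
        have h := br_jac c hj x y z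
        have e1 : br c (br c y z) x = -br c x (br c y z) := br_skew c hs _ _
        have e2 : br c (br c z x) y = br c y (br c x z) := by
          rw [br_skew c hs (br c z x) y, br_skew c hs z x]
          have : br c y (-br c x z) = -br c y (br c x z) := by
            have := br_smul_right c (-1) y (br c x z)
            simpa using this
          rw [this, neg_neg]
        rw [e1, e2] at h
        change br c x (br c y z) = br c (br c x y) z + br c y (br c x z)
        have h' : br c x (br c y z) = br c (br c x y) z + br c y (br c x z) := by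
          linear_combination (exp := 1) -h
        exact h' }
  let I2 : @LieAlgebra R (κ → R) _ I1 :=
    { (inferInstance : Module R (κ → R)) with
      lie_smul := by
        intro t x y
        exact br_smul_right c t x y }
  refine ⟨κ → R, I1, I2, Pi.basisFun R κ, ?_⟩
  intro i j k
  change br c (Pi.basisFun R κ i) (Pi.basisFun R κ j) k = c i j k
  simp [br, Pi.basisFun_apply, Pi.single_apply]

end Pool.MFL
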