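import Pool.Agent.H34.MFL.V0N

/-!
# Board mfl, row V0F: transfer of the divisibility theorem to characteristic zero
-/

set_option autoImplicit false

open Module MvPolynomial

namespace Pool.MFL

open Pool.MFQ Pool.MFM

namespace V0

section lifts

variable (B : Subalgebra ℤ ℂ)

/-- The inclusion. -/
noncomputable abbrev inc : B →+* ℂ := B.val.toRingHom

theorem inc_inj : Function.Injective (inc B) := Subtype.val_injective

theorem lift_poly (f : Polynomial ℂ) (hf : ∀ i, f.coeff i ∈ B) :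
    ∃ g : Polynomial B, mP (inc B) g = f := by
  have h : f ∈ Polynomial.lifts (inc B) := by
    rw [Polynomial.lifts_iff_coeff_lifts]
    intro n
    exact ⟨⟨f.coeff n, hf n⟩, rfl⟩
  obtain ⟨g, hg⟩ := (Polynomial.mem_lifts f).1 h
  exact ⟨g, hg⟩

theorem lift_mv {σ : Type} (f : MvPolynomial σ (Polynomial ℂ))
    (hf : ∀ α i, (coeff α f).coeff i ∈ B) :
    ∃ g : MvPolynomial σ (Polynomial B), MvPolynomial.map (mP (inc B)) g = f := by
  choose g hg using fun α => lift_poly B (coeff α f) (hf α)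
  refine ⟨∑ α ∈ f.support, monomial α (g α), ?_⟩
  rw [map_sum]
  simp only [MvPolynomial.map_monomial, hg]
  exact (MvPolynomial.as_sum f).symm

/-- The coefficients of the coefficients. -/
noncomputable def cf {σ : Type} (f : MvPolynomial σ (Polynomial ℂ)) : Finset ℂ :=
  f.support.biUnion fun α => (coeff α f).support.image fun i => (coeff α f).coeff i

theorem mem_cf {σ : Type} (f : MvPolynomial σ (Polynomial ℂ))
    (hB : ∀ x ∈ cf f, x ∈ B) (α : σ →₀ ℕ) (i : ℕ) : (coeff α f).coeff i ∈ B := by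
  by_cases h : (coeff α f).coeff i = 0
  · rw [h]
    exact B.zero_mem
  · apply hB
    unfold cf
    rw [Finset.mem_biUnion]
    refine ⟨α, ?_, ?_⟩
    · rw [MvPolynomial.mem_support_iff]
      intro h0
      apply h
      rw [h0, Polynomial.coeff_zero]
    · rw [Finset.mem_image]
      exact ⟨i, Polynomial.mem_support_iff.2 h, rfl⟩

theorem lift_L {σ τ : Type} (P : LmR (Polynomial ℂ) σ τ)
    (h1 : ∀ x ∈ cf P.1, x ∈ B) (h2 : ∀ i, ∀ x ∈ cf (P.2 i), x ∈ B) :
    ∃ Q : LmR (Polynomial B) σ τ, mL (mP (inc B)) Q = P := by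
  obtain ⟨g, hg⟩ := lift_mv B P.1 (mem_cf B P.1 h1)
  choose g2 hg2 using fun i => lift_mv B (P.2 i) (mem_cf B (P.2 i) (h2 i))
  exact ⟨(g, g2), Prod.ext hg (funext hg2)⟩

end lifts

theorem bd1 {R σ : Type} [CommRing R] (f : MvPolynomial σ (Polynomial R)) :
    ∃ T : ℕ, ∀ α, (coeff α f).natDegree ≤ T := by
  refine ⟨f.support.sup fun α => (coeff α f).natDegree, fun α => ?_⟩
  by_cases h : α ∈ f.support
  · exact Finset.le_sup (f := fun α => (coeff α f).natDegree) h
  · rw [MvPolynomial.mem_support_iff, not_not] at h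
    rw [h]
    simp

theorem bd2 {R σ τ J : Type} [CommRing R] [Fintype τ] [Fintype J]
    (P : J → LmR (Polynomial R) σ τ) :
    ∃ T : ℕ, ∀ j i α, (coeff α ((P j).2 i)).natDegree ≤ T := by
  choose T hT using fun x : J × τ => bd1 ((P x.1).2 x.2)
  refine ⟨Finset.univ.sup T, fun j i α => (hT (j, i) α).trans ?_⟩
  exact Finset.le_sup (Finset.mem_univ (j, i))

section struct

variable {R L κ : Type} [CommRing R] [LieRing L] [LieAlgebra R L] [Fintype κ]
  (b : Basis κ R L)

theorem stc_self (i k : κ) : stc b i i k = 0 := by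
  simp [stc]

theorem stc_br (i j k l : κ) : b.repr ⁅⁅b i, b j⁆, b k⁆ l = ∑ m, stc b i j m * stc b m k l := by
  have h : ⁅b i, b j⁆ = ∑ m, stc b i j m • b m := (b.sum_repr ⁅b i, b j⁆).symm
  rw [h, sum_lie, map_sum, Finsupp.finset_sum_apply]
  refine Finset.sum_congr rfl fun m _ => ?_
  rw [smul_lie, map_smul]
  rfl

theorem stc_jac (i j k l : κ) :
    ∑ m, (stc b i j m * stc b m k l + stc b j k m * stc b m i l +
      stc b k i m * stc b m j l) = 0 := by
  rw [Finset.sum_add_distrib, Finset.sum_add_distrib, ← stc_br, ← stc_br, ← stc_br]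
  have h : ⁅⁅b i, b j⁆, b k⁆ + ⁅⁅b j, b k⁆, b i⁆ + ⁅⁅b k, b i⁆, b j⁆ = 0 := by
    have h1 := lie_jacobi (b i) (b j) (b k)
    rw [← lie_skew ⁅b i, b j⁆ (b k), ← lie_skew ⁅b j, b k⁆ (b i), ← lie_skew ⁅b k, b i⁆ (b j)]
    rw [← neg_add, ← neg_add, neg_eq_zero]
    rw [← h1]
    abel
  have h2 := congrArg (fun x => b.repr x l) h
  simpa using h2

end struct

/-- Models over a commutative ring. -/
theorem model (h3 : SCLStmt) (h6 : EXXStmt) (h7 : EVXStmt) (R J : Type) [CommRing R] (s q : ℕ)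
    (c : Fin s ⊕ Fin q → Fin s ⊕ Fin q → Fin s ⊕ Fin q → R) (hz : ∀ i k, c i i k = 0)
    (hc : AdC c) (hj : ∀ i j k l, ∑ m, (c i j m * c m k l + c j k m * c m i l +
      c k i m * c m j l) = 0)
    (P : J → LmR (Polynomial R) (Fin s) (Fin q)) (hbr : ∀ i j, brC (cX c) (P i) (P j) = 0) :
    ∃ (L : Type) (_ : LieRing L) (_ : LieAlgebra R L) (b : Basis (Fin s ⊕ Fin q) R L)
      (e : MvPolynomial (Fin s) (Polynomial R) →+* Polynomial (UniversalEnvelopingAlgebra R L))
      (ev : MvPolynomial J (Polynomial R) →+* Polynomial (UniversalEnvelopingAlgebra R L)),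
      stc b = c ∧ IsEX b e ∧ IsEv b e P ev := by
  obtain ⟨L, i1, i2, b, hb⟩ := h3 R (Fin s ⊕ Fin q) c hz hc.skew hj
  have hs : stc b = c := by
    funext i j k
    exact hb i j k
  obtain ⟨e, he⟩ := h6 R L (Fin s) (Fin q) b (hs ▸ hc)
  obtain ⟨ev, hev, -⟩ := h7 R L (Fin s) (Fin q) J b (hs ▸ hc) e he P (hs ▸ hbr)
  exact ⟨L, i1, i2, b, e, ev, hs, he, hev⟩

/-- Base change. -/
theorem bch (h4 : BCHStmt) {R R' L L' : Type} [CommRing R] [CommRing R'] [LieRing L]
    [LieAlgebra R L] [LieRing L'] [LieAlgebra R' L'] (φ : R →+* R') (s q : ℕ)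
    (b : Basis (Fin s ⊕ Fin q) R L) (b' : Basis (Fin s ⊕ Fin q) R' L')
    (h : ∀ i j k, stc b' i j k = φ (stc b i j k)) :
    ∃ Φ : UniversalEnvelopingAlgebra R L →+* UniversalEnvelopingAlgebra R' L',
      (∀ r, Φ (algebraMap R _ r) = algebraMap R' _ (φ r)) ∧
      (∀ z, Φ (UniversalEnvelopingAlgebra.ι R (b z)) = UniversalEnvelopingAlgebra.ι R' (b' z)) ∧
      ∀ f, Φ (pm (b.reindex finSumFinEquiv) f) =
        pm (b'.reindex finSumFinEquiv) (MvPolynomial.map φ f) := by
  obtain ⟨Φ, hΦ, hι, hpm⟩ := h4 R R' L L' φ (s + q) (b.reindex finSumFinEquiv)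
    (b'.reindex finSumFinEquiv) (by
      intro i j k
      simp only [Basis.reindex_apply, Basis.repr_reindex_apply]
      exact h _ _ _)
  refine ⟨Φ, hΦ, fun z => ?_, hpm⟩
  have := hι (finSumFinEquiv z)
  simpa using this

end V0

open V0 in
theorem t_v0f (h1 : VPXStmt) (h2 : PBRStmt) (h3 : SCLStmt) (h4 : BCHStmt) (h5 : MDPStmt)
    (h6 : EXXStmt) (h7 : EVXStmt) : V0FStmt := by
  classical
  intro L J _ _ _ s q b hc P d k m hd hP hbr e he ev hev F hF hdvd
  -- the finitely generated ring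
  obtain ⟨S, hS1, hS2, hS3, hS4⟩ : ∃ S : Finset ℂ, (∀ i j k, stc b i j k ∈ S) ∧
      (∀ j, cf (P j).1 ⊆ S) ∧ (∀ j i, cf ((P j).2 i) ⊆ S) ∧ cf F ⊆ S := by
    refine ⟨(Finset.univ.image fun x : (Fin s ⊕ Fin q) × (Fin s ⊕ Fin q) × (Fin s ⊕ Fin q) =>
      stc b x.1 x.2.1 x.2.2) ∪ (Finset.univ.biUnion fun j => cf (P j).1) ∪
      (Finset.univ.biUnion fun x : J × Fin q => cf ((P x.1).2 x.2)) ∪ cf F, ?_, ?_, ?_, ?_⟩
    · intro i j k
      simp only [Finset.mem_union]
      left; left; left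
      exact Finset.mem_image.2 ⟨(i, j, k), Finset.mem_univ _, rfl⟩
    · intro j x hx
      simp only [Finset.mem_union]
      left; left; right
      exact Finset.mem_biUnion.2 ⟨j, Finset.mem_univ _, hx⟩
    · intro j i x hx
      simp only [Finset.mem_union]
      left; right
      exact Finset.mem_biUnion.2 ⟨(j, i), Finset.mem_univ _, hx⟩
    · intro x hx
      simp only [Finset.mem_union]
      right
      exact hx
  have hSB : ∀ x ∈ S, x ∈ Algebra.adjoin ℤ (S : Set ℂ) := fun x hx =>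
    Algebra.subset_adjoin hx
  have h5' := h5 S
  generalize hB : Algebra.adjoin ℤ (S : Set ℂ) = B at hSB h5'
  have hinj : Function.Injective (inc B) := inc_inj B
  have hinj2 : Function.Injective (mP (inc B)) := Polynomial.map_injective _ hinj
  -- data over B
  let c : Fin s ⊕ Fin q → Fin s ⊕ Fin q → Fin s ⊕ Fin q → B := fun i j k =>
    ⟨stc b i j k, hSB _ (hS1 i j k)⟩
  have hcv : ∀ i j k, inc B (c i j k) = stc b i j k := fun i j k => rfl
  have hcX : (fun i j k => mP (inc B) (cX c i j k)) = cX (stc b) := by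
    rw [cX_map]
    rfl
  choose PB hPB using fun j => lift_L B (P j) (fun x hx => hSB x (hS2 j hx))
    (fun i x hx => hSB x (hS3 j i hx))
  obtain ⟨FB, hFB⟩ := lift_mv B F (mem_cf B F fun x hx => hSB x (hS4 hx))
  have hz : ∀ i k, c i i k = 0 := fun i k => hinj (by
    rw [hcv, stc_self, map_zero])
  have hAc : AdC c := by
    refine ⟨fun i j k => hinj ?_, fun l n k => hinj ?_, fun z l i => hinj ?_⟩
    · rw [map_neg, hcv, hcv, hc.skew]
    · rw [map_zero, hcv, hc.ab]
    · rw [map_zero, hcv, hc.idl]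
  have hjc : ∀ i j k l, ∑ n, (c i j n * c n k l + c j k n * c n i l +
      c k i n * c n j l) = 0 := by
    intro i j k l
    apply hinj
    rw [map_sum, map_zero]
    simp only [map_add, map_mul, hcv]
    exact stc_jac b i j k l
  have hbB : ∀ i j, brC (cX c) (PB i) (PB j) = 0 := by
    intro i j
    apply mL_inj (mP (inc B)) hinj2
    rw [brC_map, hcX, hPB, hPB, hbr, mL_zero]
  have hFBw : FB.IsWeightedHomogeneous d k :=
    whom_inj (mP (inc B)) hinj2 d k FB (by rw [hFB]; exact hF)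
  have hPBh : ∀ j, HomR (d j) (PB j) := fun j =>
    HomR_inj (mP (inc B)) hinj2 _ _ (by rw [hPB]; exact hP j)
  have hdB : C (Polynomial.X ^ m) ∣ aeval (fun j => iLR (PB j)) FB := by
    apply dvd_inj (inc B) hinj
    rw [aeval_map']
    simp only [iLR_map, hPB, hFB]
    exact hdvd
  obtain ⟨T, hT⟩ := bd2 PB
  obtain ⟨LB, i1, i2, bB, eB, evB, hsB, heB, hevB⟩ := model h3 h6 h7 B J s q c hz hAc hjc PB hbB
  obtain ⟨Φ, hΦ, hι, hpm⟩ := bch h4 (inc B) s q bB b (by
    intro i j k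
    rw [hsB, hcv])
  have hmain : (evB FB).map Φ = ev F := by
    rw [← hFB]
    exact ev_map (inc B) bB b Φ hΦ hι eB e heB he PB P hPB evB ev hevB hev FB
  suffices hx : Polynomial.X ^ m ∣ ev F from hx
  rw [Polynomial.X_pow_dvd_iff]
  intro i hi
  rw [← hmain, Polynomial.coeff_map]
  obtain ⟨f, hf⟩ := (h2 B LB (s + q) (bB.reindex finSumFinEquiv)).2 ((evB FB).coeff i)
  suffices hf0 : f = 0 by
    rw [← hf, hf0, map_zero, map_zero]
  by_contra hne
  obtain ⟨α, hα⟩ := MvPolynomial.ne_zero_iff.1 hne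
  subst hB
  obtain ⟨κ, i3, p, i4, i5, φ, hpB, hφ⟩ := h5' ((k + 1) * (q * T)) (coeff α f) hα
  -- data over the residue field
  let c' : Fin s ⊕ Fin q → Fin s ⊕ Fin q → Fin s ⊕ Fin q → κ := fun i j k => φ (c i j k)
  have hcX' : (fun i j k => mP φ (cX c i j k)) = cX c' := cX_map φ c
  have hz' : ∀ i k, c' i i k = 0 := fun i k => by
    change φ (c i i k) = 0
    rw [hz, map_zero]
  have hAc' : AdC c' := by
    refine ⟨fun i j k => ?_, fun l n k => ?_, fun z l i => ?_⟩
    · change φ (c i j k) = -φ (c j i k)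
      rw [hAc.skew, map_neg]
    · change φ (c _ _ k) = 0
      rw [hAc.ab, map_zero]
    · change φ (c z _ _) = 0
      rw [hAc.idl, map_zero]
  have hjc' : ∀ i j k l, ∑ n, (c' i j n * c' n k l + c' j k n * c' n i l +
      c' k i n * c' n j l) = 0 := by
    intro i j k l
    have := congrArg φ (hjc i j k l)
    rw [map_sum, map_zero] at this
    simpa only [map_add, map_mul] using this
  let PK : J → LmR (Polynomial κ) (Fin s) (Fin q) := fun j => mL (mP φ) (PB j)
  have hbK : ∀ i j, brC (cX c') (PK i) (PK j) = 0 := by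
    intro i j
    change brC (cX c') (mL (mP φ) (PB i)) (mL (mP φ) (PB j)) = 0
    rw [← hcX', ← brC_map, hbB, mL_zero]
  obtain ⟨LK, j1, j2, bK, eK, evK, hsK, heK, hevK⟩ :=
    model h3 h6 h7 κ J s q c' hz' hAc' hjc' PK hbK
  obtain ⟨Ψ, hΨ, hιΨ, hpmΨ⟩ := bch h4 φ s q bB bK (by
    intro i j k
    rw [hsB, hsK])
  have hmainK : (evB FB).map Ψ = evK (MvPolynomial.map (mP φ) FB) :=
    ev_map φ bB bK Ψ hΨ hιΨ eB eK heB heK PB PK (fun j => rfl) evB evK hevB hevK FB
  obtain ⟨u, hu⟩ := h1 κ LK J p s q bK (hsK ▸ hAc') PK d T k m hd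
    (fun j => HomR_map _ _ _ (hPBh j))
    (fun j i α => by
      change (coeff α (MvPolynomial.map (mP φ) ((PB j).2 i))).natDegree ≤ T
      rw [MvPolynomial.coeff_map]
      exact Polynomial.natDegree_map_le.trans (hT j i α))
    (hsK ▸ hbK) hpB eK heK evK hevK (MvPolynomial.map (mP φ) FB) (whom_map _ d k FB hFBw) (by
      have := dvd_map φ m _ hdB
      rw [aeval_map'] at this
      simpa only [iLR_map] using this)
  have h0 : (evK (MvPolynomial.map (mP φ) FB)).coeff i = 0 := by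
    have : Polynomial.X ^ m ∣ evK (MvPolynomial.map (mP φ) FB) := ⟨u, hu⟩
    exact Polynomial.X_pow_dvd_iff.1 this i hi
  rw [← hmainK, Polynomial.coeff_map, ← hf, hpmΨ] at h0
  have h00 : MvPolynomial.map φ f = 0 :=
    (h2 κ LK (s + q) (bK.reindex finSumFinEquiv)).1 (by rw [h0, map_zero])
  apply hφ
  have := congrArg (coeff α) h00
  rwa [MvPolynomial.coeff_map, MvPolynomial.coeff_zero] at this

end Pool.MFL
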