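import Pool.Agent.H51.MFL.S

/-!
# Board mfl: naturality of the constructions in the base ring (for V0F)
-/

set_option autoImplicit false

open Module MvPolynomial

namespace Pool.MFL

open Pool.MFQ Pool.MFM

namespace V0

section coef

variable {T T' σ τ : Type} [CommRing T] [CommRing T'] (ψ : T →+* T')

/-- Change of coefficients for elements affine in the complement. -/
noncomputable def mL (P : LmR T σ τ) : LmR T' σ τ :=
  (MvPolynomial.map ψ P.1, fun i => MvPolynomial.map ψ (P.2 i))

theorem DC_map [Fintype σ] (c : σ ⊕ τ → σ ⊕ τ → σ ⊕ τ → T) (i : τ) (f : MvPolynomial σ T) :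
    MvPolynomial.map ψ (DC c i f) =
      DC (fun i j k => ψ (c i j k)) i (MvPolynomial.map ψ f) := by
  induction f using MvPolynomial.induction_on with
  | C a => simp [DC]
  | add p q hp hq => simp only [map_add, hp, hq]
  | mul_X p n hp =>
    rw [Derivation.leibniz, map_mul, Derivation.leibniz, MvPolynomial.map_X]
    simp only [smul_eq_mul, map_add, map_mul, hp, MvPolynomial.map_X]
    congr 2
    simp [DC, MvPolynomial.mkDerivation_X]

theorem bC_map [Fintype σ] (c : σ ⊕ τ → σ ⊕ τ → σ ⊕ τ → T) (i j : τ) :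
    MvPolynomial.map ψ (bC c i j) = bC (fun i j k => ψ (c i j k)) i j := by
  simp [bC]

theorem dvC_map [Fintype σ] [Fintype τ] (c : σ ⊕ τ → σ ⊕ τ → σ ⊕ τ → T) (P : LmR T σ τ)
    (f : MvPolynomial σ T) :
    MvPolynomial.map ψ (dvC c P f) =
      dvC (fun i j k => ψ (c i j k)) (mL ψ P) (MvPolynomial.map ψ f) := by
  simp [dvC, DC_map, mL]

theorem brC_map [Fintype σ] [Fintype τ] (c : σ ⊕ τ → σ ⊕ τ → σ ⊕ τ → T) (P Q : LmR T σ τ) :
    mL ψ (brC c P Q) = brC (fun i j k => ψ (c i j k)) (mL ψ P) (mL ψ Q) := by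
  refine Prod.ext ?_ ?_
  · simp only [mL, brC, map_sub, map_add, map_sum, map_mul, bC_map, dvC_map]
  · funext k
    simp only [mL, brC, map_sub, map_add, map_sum, map_mul, dvC_map, MvPolynomial.map_C]

theorem iLR_map [Fintype τ] (P : LmR T σ τ) :
    MvPolynomial.map ψ (iLR P) = iLR (mL ψ P) := by
  simp [iLR, mL, MvPolynomial.map_rename]

theorem aeval_map' {J : Type} (g : J → MvPolynomial σ T) (F : MvPolynomial J T) :
    MvPolynomial.map ψ (aeval g F) =
      aeval (fun j => MvPolynomial.map ψ (g j)) (MvPolynomial.map ψ F) := by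
  induction F using MvPolynomial.induction_on with
  | C a => simp [MvPolynomial.algebraMap_eq]
  | add p q hp hq => simp only [map_add, hp, hq]
  | mul_X p n hp => simp only [map_mul, hp, MvPolynomial.map_X, aeval_X]

theorem mL_inj (hψ : Function.Injective ψ) :
    Function.Injective (mL ψ : LmR T σ τ → LmR T' σ τ) := by
  intro P Q h
  have h1 := congrArg Prod.fst h
  have h2 := congrArg Prod.snd h
  refine Prod.ext (MvPolynomial.map_injective ψ hψ h1) ?_
  funext i
  exact MvPolynomial.map_injective ψ hψ (congrFun h2 i)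

theorem mL_zero : mL ψ (0 : LmR T σ τ) = 0 := by
  refine Prod.ext ?_ ?_
  · simp [mL]
  · funext i
    simp [mL]

theorem hom_map (k : ℕ) (f : MvPolynomial σ T) (hf : f.IsHomogeneous k) :
    (MvPolynomial.map ψ f).IsHomogeneous k := by
  intro α hα
  refine hf ?_
  intro h
  apply hα
  rw [MvPolynomial.coeff_map, h, map_zero]

theorem hom_inj (hψ : Function.Injective ψ) (k : ℕ) (f : MvPolynomial σ T)
    (hf : (MvPolynomial.map ψ f).IsHomogeneous k) : f.IsHomogeneous k := by
  intro α hα
  refine hf ?_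
  rw [MvPolynomial.coeff_map]
  intro h
  exact hα (hψ (by rw [h, map_zero]))

theorem whom_map (d : σ → ℕ) (k : ℕ) (f : MvPolynomial σ T) (hf : f.IsWeightedHomogeneous d k) :
    (MvPolynomial.map ψ f).IsWeightedHomogeneous d k := by
  intro α hα
  refine hf ?_
  intro h
  apply hα
  rw [MvPolynomial.coeff_map, h, map_zero]

theorem whom_inj (hψ : Function.Injective ψ) (d : σ → ℕ) (k : ℕ) (f : MvPolynomial σ T)
    (hf : (MvPolynomial.map ψ f).IsWeightedHomogeneous d k) : f.IsWeightedHomogeneous d k := by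
  intro α hα
  refine hf ?_
  rw [MvPolynomial.coeff_map]
  intro h
  exact hα (hψ (by rw [h, map_zero]))

theorem HomR_map (k : ℕ) (P : LmR T σ τ) (hP : HomR k P) : HomR k (mL ψ P) :=
  ⟨hom_map ψ k _ hP.1, fun i => hom_map ψ _ _ (hP.2 i)⟩

theorem HomR_inj (hψ : Function.Injective ψ) (k : ℕ) (P : LmR T σ τ) (hP : HomR k (mL ψ P)) :
    HomR k P :=
  ⟨hom_inj ψ hψ k _ hP.1, fun i => hom_inj ψ hψ _ _ (hP.2 i)⟩

end coef

section fam

variable {R R' : Type} [CommRing R] [CommRing R'] (φ : R →+* R')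

/-- Change of coefficients for polynomials. -/
noncomputable abbrev mP : Polynomial R →+* Polynomial R' := Polynomial.mapRingHom φ

theorem cX_map {κ : Type} (c : κ → κ → κ → R) :
    (fun i j k => mP φ (cX c i j k)) = cX (fun i j k => φ (c i j k)) := by
  funext i j k
  simp [cX, mP]

theorem dvd_iff {σ : Type} (m : ℕ) (f : MvPolynomial σ (Polynomial R)) :
    C (Polynomial.X ^ m) ∣ f ↔ ∀ α, ∀ i < m, (coeff α f).coeff i = 0 := by
  rw [MvPolynomial.C_dvd_iff_dvd_coeff]
  refine forall_congr' fun α => ?_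
  rw [Polynomial.X_pow_dvd_iff]

theorem dvd_map {σ : Type} (m : ℕ) (f : MvPolynomial σ (Polynomial R))
    (h : C (Polynomial.X ^ m) ∣ f) : C (Polynomial.X ^ m) ∣ MvPolynomial.map (mP φ) f := by
  obtain ⟨g, rfl⟩ := h
  refine ⟨MvPolynomial.map (mP φ) g, ?_⟩
  rw [map_mul, MvPolynomial.map_C]
  simp [mP]

theorem dvd_inj {σ : Type} (hφ : Function.Injective φ) (m : ℕ)
    (f : MvPolynomial σ (Polynomial R))
    (h : C (Polynomial.X ^ m) ∣ MvPolynomial.map (mP φ) f) : C (Polynomial.X ^ m) ∣ f := by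
  rw [dvd_iff] at h ⊢
  intro α i hi
  have := h α i hi
  rw [MvPolynomial.coeff_map, Polynomial.coe_mapRingHom, Polynomial.coeff_map] at this
  exact hφ (by rw [this, map_zero])

variable {L L' σ τ J : Type} [LieRing L] [LieAlgebra R L] [LieRing L'] [LieAlgebra R' L']
  (b : Basis (σ ⊕ τ) R L) (b' : Basis (σ ⊕ τ) R' L')
  (Φ : UniversalEnvelopingAlgebra R L →+* UniversalEnvelopingAlgebra R' L')
  (hΦ : ∀ r, Φ (algebraMap R _ r) = algebraMap R' _ (φ r))
  (hι : ∀ z, Φ (UniversalEnvelopingAlgebra.ι R (b z)) = UniversalEnvelopingAlgebra.ι R' (b' z))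

include hΦ in
theorem map_alg (f : Polynomial R) :
    (f.map (algebraMap R (UniversalEnvelopingAlgebra R L))).map Φ =
      (mP φ f).map (algebraMap R' (UniversalEnvelopingAlgebra R' L')) := by
  ext i
  simp [mP, hΦ]

include hΦ hι in
theorem e_map (e : MvPolynomial σ (Polynomial R) →+* Polynomial (UniversalEnvelopingAlgebra R L))
    (e' : MvPolynomial σ (Polynomial R') →+* Polynomial (UniversalEnvelopingAlgebra R' L'))
    (he : IsEX b e) (he' : IsEX b' e') (f : MvPolynomial σ (Polynomial R)) :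
    (e f).map Φ = e' (MvPolynomial.map (mP φ) f) := by
  have h : (Polynomial.mapRingHom Φ).comp e = e'.comp (MvPolynomial.map (mP φ)) := by
    refine MvPolynomial.ringHom_ext ?_ ?_
    · intro r
      rw [RingHom.comp_apply, RingHom.comp_apply, MvPolynomial.map_C, he.hC, he'.hC,
        Polynomial.coe_mapRingHom, map_alg φ Φ hΦ]
    · intro l
      rw [RingHom.comp_apply, RingHom.comp_apply, MvPolynomial.map_X, he.hX, he'.hX,
        Polynomial.coe_mapRingHom, Polynomial.map_C, hι]
  exact RingHom.congr_fun h f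

include hΦ hι in
theorem liX_map [Fintype τ]
    (e : MvPolynomial σ (Polynomial R) →+* Polynomial (UniversalEnvelopingAlgebra R L))
    (e' : MvPolynomial σ (Polynomial R') →+* Polynomial (UniversalEnvelopingAlgebra R' L'))
    (he : IsEX b e) (he' : IsEX b' e') (P : LmR (Polynomial R) σ τ) :
    (liX b e P).map Φ = liX b' e' (mL (mP φ) P) := by
  have h := e_map φ b b' Φ hΦ hι e e' he he'
  simp only [liX, mL, ← h, ← hι]
  simp only [← Polynomial.coe_mapRingHom, map_add, map_sum, map_mul]
  simp only [Polynomial.coe_mapRingHom, Polynomial.map_C]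

include hΦ hι in
theorem ev_map [Fintype τ]
    (e : MvPolynomial σ (Polynomial R) →+* Polynomial (UniversalEnvelopingAlgebra R L))
    (e' : MvPolynomial σ (Polynomial R') →+* Polynomial (UniversalEnvelopingAlgebra R' L'))
    (he : IsEX b e) (he' : IsEX b' e') (P : J → LmR (Polynomial R) σ τ)
    (P' : J → LmR (Polynomial R') σ τ) (hP : ∀ j, mL (mP φ) (P j) = P' j)
    (ev : MvPolynomial J (Polynomial R) →+* Polynomial (UniversalEnvelopingAlgebra R L))
    (ev' : MvPolynomial J (Polynomial R') →+* Polynomial (UniversalEnvelopingAlgebra R' L'))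
    (hev : IsEv b e P ev) (hev' : IsEv b' e' P' ev') (F : MvPolynomial J (Polynomial R)) :
    (ev F).map Φ = ev' (MvPolynomial.map (mP φ) F) := by
  have h : (Polynomial.mapRingHom Φ).comp ev = ev'.comp (MvPolynomial.map (mP φ)) := by
    refine MvPolynomial.ringHom_ext ?_ ?_
    · intro r
      rw [RingHom.comp_apply, RingHom.comp_apply, MvPolynomial.map_C, hev.hC, hev'.hC,
        Polynomial.coe_mapRingHom, map_alg φ Φ hΦ]
    · intro l
      rw [RingHom.comp_apply, RingHom.comp_apply, MvPolynomial.map_X, hev.hX, hev'.hX,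
        Polynomial.coe_mapRingHom, liX_map φ b b' Φ hΦ hι e e' he he', hP]
  exact RingHom.congr_fun h F

end fam

end V0

end Pool.MFL
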