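import Pool.Agent.H51.MFL.S

/-!
# Board mfl, row V0X: arbitrary families
-/

set_option autoImplicit false

open Module MvPolynomial

namespace Pool.MFL

open Pool.MFQ Pool.MFM

theorem whom_of_rename {R σ τ : Type} [CommRing R] (f : σ → τ) (hf : Function.Injective f)
    (d : τ → ℕ) (k : ℕ) (F : MvPolynomial σ R)
    (hF : (rename f F).IsWeightedHomogeneous d k) :
    F.IsWeightedHomogeneous (fun j => d (f j)) k := by
  intro α hα
  have h := @hF (Finsupp.mapDomain f α) (by rwa [coeff_rename_mapDomain f hf])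
  rw [← h]
  simp only [Finsupp.weight_apply]
  rw [Finsupp.sum_mapDomain_index_inj hf]

theorem t_v0x (h : V0FStmt) : V0XStmt := by
  classical
  intro L J _ _ s q b hc P d k m hd hP hbr e he ev hev F hF hdvd
  obtain ⟨S, F0, rfl⟩ := exists_finset_rename F
  have hinj : Function.Injective (Subtype.val : {x // x ∈ S} → J) := Subtype.val_injective
  have hw := whom_of_rename (Subtype.val : {x // x ∈ S} → J) hinj d k F0 hF
  let ev0 : MvPolynomial {x // x ∈ S} (Polynomial ℂ) →+*
      Polynomial (UniversalEnvelopingAlgebra ℂ L) :=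
    ev.comp (rename (Subtype.val : {x // x ∈ S} → J) :
      MvPolynomial {x // x ∈ S} (Polynomial ℂ) →ₐ[Polynomial ℂ] MvPolynomial J (Polynomial ℂ))
  have hev0 : IsEv b e (fun j : {x // x ∈ S} => P j.1) ev0 := by
    refine ⟨fun f => ?_, fun j => ?_⟩
    · change ev (rename _ (C f)) = _
      rw [rename_C, hev.hC]
    · change ev (rename _ (X j)) = _
      rw [rename_X, hev.hX]
  exact h L {x // x ∈ S} s q b hc (fun j => P j.1) (fun j => d j.1) k m (fun j => hd j.1)
    (fun j => hP j.1) (fun i j => hbr i.1 j.1) e he ev0 hev0 F0 hw (by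
      rw [aeval_rename] at hdvd
      exact hdvd)

end Pool.MFL
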